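import Pool.Agent.Y85.IsoP.Main

/-!
# The isomorphism problem for the groups of finite invertible automata is undecidable

Automata, their action on finite words, their groups and their tables are defined in
`Pool.Agent.Y85.IsoP.Defs`.
-/

set_option autoImplicit false

namespace Pool.Agent.Results.MP_56d946_al.Undecidable

open Pool.Agent.Y85.IsoP

/-- 1. No algorithm decides, given the tables of two finite invertible automata (any numbers of
states, any alphabets), whether their self-similar groups are isomorphic.
2. Even over one alphabet with 18 letters no algorithm separates the pairs of automata with equal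
groups from the pairs of which the first group is torsion free and the second one has an element
of order two. -/
theorem result :
    (¬ ∃ f : List (List (ℕ × ℕ)) × List (List (ℕ × ℕ)) → Bool, Computable f ∧
      ∀ (m n m' n' : ℕ) (A : Automaton m n) (B : Automaton m' n'),
        1 ≤ m → 2 ≤ n → 1 ≤ m' → 2 ≤ n' →
        (f (A.table, B.table) = true ↔ Nonempty (A.group ≃* B.group))) ∧
    (¬ ∃ f : List (List (ℕ × ℕ)) × List (List (ℕ × ℕ)) → Bool, Computable f ∧
      ∀ (m m' : ℕ) (A : Automaton m 18) (B : Automaton m' 18), 1 ≤ m → 1 ≤ m' →
        (A.group = B.group → f (A.table, B.table) = true) ∧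
        ((∀ g ∈ A.group, ∀ k : ℕ, 0 < k → g ^ k = 1 → g = 1) →
          (∃ g ∈ B.group, g ≠ 1 ∧ g ^ 2 = 1) → f (A.table, B.table) = false)) := by
  refine ⟨?_, main⟩
  rintro ⟨f, hf, h⟩
  refine main ⟨f, hf, ?_⟩
  intro m m' A B hm hm'
  have h1 := h m 18 m' 18 A B hm (by norm_num) hm' (by norm_num)
  refine ⟨?_, ?_⟩
  · intro h2
    rw [h1, h2]
    exact ⟨MulEquiv.refl _⟩
  · intro h2 h3
    rw [← Bool.not_eq_true, h1]
    exact not_iso _ _ h2 h3

end Pool.Agent.Results.MP_56d946_al.Undecidable
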